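import Pool.Agent.Helper58.LT.Ratio
import Pool.Agent.Helper58.LT.Convex

/-!
# CB/Count: triples `(q, b₁, b₂)` with `λ(q) + λ(b₁) + λ(b₂)` in a short interval
-/

set_option autoImplicit false

namespace Pool.Agent.Helper84.CB

open Finset Pool.Agent.Helper58.LT

/-- the number of triples with a given sum of the integer versions -/
theorem level_sq_le (Q B : Finset ℕ) (ψ : ℕ → ℤ) (u : ℤ) :
    #{z ∈ Q ×ˢ B ×ˢ B | ψ z.1 + ψ z.2.1 + ψ z.2.2 = u} ^ 2 ≤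
      mom B ψ Q ψ 1 1 * Js B ψ 1 := by
  refine le_trans (Nat.pow_le_pow_left ?_ 2) (card_sum_sq_le (tup B 1 ×ˢ tup Q 1)
    (fun z => sm' ψ z.1 + sm' ψ z.2) (tup B 1) (sm' ψ) u)
  refine card_le_card_of_injOn
    (fun z : ℕ × ℕ × ℕ => (((fun _ => z.2.1, fun _ => z.1), fun _ => z.2.2) :
      ((Fin 1 → ℕ) × (Fin 1 → ℕ)) × (Fin 1 → ℕ))) ?_ ?_
  · rintro ⟨q, b, b'⟩ hz
    simp only [coe_filter, mem_product, Set.mem_ofPred_eq] at hz ⊢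
    refine ⟨⟨⟨mem_tup.2 fun _ => hz.1.2.1, mem_tup.2 fun _ => hz.1.1⟩,
      mem_tup.2 fun _ => hz.1.2.2⟩, ?_⟩
    simp only [sm', univ_unique, sum_const, card_singleton, one_smul]
    rw [← hz.2]
    ring
  · rintro ⟨q, b, b'⟩ _ ⟨q', c, c'⟩ _ heq
    simp only [Prod.mk.injEq] at heq
    obtain ⟨⟨h1, h2⟩, h3⟩ := heq
    have e1 : b = c := congrFun h1 0
    have e2 : q = q' := congrFun h2 0
    have e3 : b' = c' := congrFun h3 0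
    rw [e1, e2, e3]

/-- the triples with the sum of the `λ` in an interval of length `w / N` -/
theorem window_le (Q B : Finset ℕ) (N : ℕ) (hN : 1 ≤ N) (v w M : ℝ) (hw : 0 ≤ w)
    (hM : ∀ u : ℤ, (#{z ∈ Q ×ˢ B ×ˢ B | psi N z.1 + psi N z.2.1 + psi N z.2.2 = u} : ℝ) ≤ M)
    (T : Finset (ℕ × ℕ × ℕ)) (hT : ∀ z ∈ T, z ∈ Q ×ˢ B ×ˢ B ∧
      v - w / N < lam z.1 + lam z.2.1 + lam z.2.2 ∧ lam z.1 + lam z.2.1 + lam z.2.2 < v) :
    (#T : ℝ) ≤ (w + 4) * M := by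
  classical
  have hNR : (1 : ℝ) ≤ N := by exact_mod_cast hN
  have hN0 : (0 : ℝ) < N := by linarith
  have hM0 : 0 ≤ M := le_trans (Nat.cast_nonneg _) (hM 0)
  set J : Finset ℤ := Icc ⌈(N : ℝ) * v - w - 3⌉ ⌊(N : ℝ) * v⌋ with hJ
  have hmap : ∀ z ∈ T, psi N z.1 + psi N z.2.1 + psi N z.2.2 ∈ J := by
    intro z hz
    obtain ⟨_, h1, h2⟩ := hT z hz
    have a1 : ((psi N z.1 : ℤ) : ℝ) ≤ N * lam z.1 := Int.floor_le _
    have a2 : ((psi N z.2.1 : ℤ) : ℝ) ≤ N * lam z.2.1 := Int.floor_le _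
    have a3 : ((psi N z.2.2 : ℤ) : ℝ) ≤ N * lam z.2.2 := Int.floor_le _
    have b1 : (N : ℝ) * lam z.1 - 1 < ((psi N z.1 : ℤ) : ℝ) := Int.sub_one_lt_floor _
    have b2 : (N : ℝ) * lam z.2.1 - 1 < ((psi N z.2.1 : ℤ) : ℝ) := Int.sub_one_lt_floor _
    have b3 : (N : ℝ) * lam z.2.2 - 1 < ((psi N z.2.2 : ℤ) : ℝ) := Int.sub_one_lt_floor _
    have c1 : (N : ℝ) * (v - w / N) < N * (lam z.1 + lam z.2.1 + lam z.2.2) :=
      mul_lt_mul_of_pos_left h1 hN0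
    have c2 : (N : ℝ) * (lam z.1 + lam z.2.1 + lam z.2.2) < N * v :=
      mul_lt_mul_of_pos_left h2 hN0
    have c3 : (N : ℝ) * (v - w / N) = N * v - w := by
      field_simp
    rw [hJ, mem_Icc, Int.ceil_le, Int.le_floor]
    push_cast
    constructor
    · linarith
    · linarith
  have h1 : #T = ∑ u ∈ J, #{z ∈ T | psi N z.1 + psi N z.2.1 + psi N z.2.2 = u} :=
    card_eq_sum_card_fiberwise hmap
  have h2 : ∀ u ∈ J, (#{z ∈ T | psi N z.1 + psi N z.2.1 + psi N z.2.2 = u} : ℝ) ≤ M := by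
    intro u _
    refine le_trans ?_ (hM u)
    exact_mod_cast card_le_card (fun z hz => by
      rw [mem_filter] at hz ⊢
      exact ⟨(hT z hz.1).1, hz.2⟩)
  have h3 : (#J : ℝ) ≤ w + 4 := by
    rw [hJ, Int.card_Icc]
    have e1 : (⌊(N : ℝ) * v⌋ : ℝ) ≤ N * v := Int.floor_le _
    have e2 : (N : ℝ) * v - w - 3 ≤ ⌈(N : ℝ) * v - w - 3⌉ := Int.le_ceil _
    rcases le_or_gt 0 (⌊(N : ℝ) * v⌋ + 1 - ⌈(N : ℝ) * v - w - 3⌉) with h | h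
    · have e3 : (((⌊(N : ℝ) * v⌋ + 1 - ⌈(N : ℝ) * v - w - 3⌉).toNat : ℕ) : ℝ) =
          ((⌊(N : ℝ) * v⌋ + 1 - ⌈(N : ℝ) * v - w - 3⌉ : ℤ) : ℝ) := by
        exact_mod_cast congrArg (fun x : ℤ => (x : ℝ)) (Int.toNat_of_nonneg h)
      rw [e3]
      push_cast
      linarith
    · rw [Int.toNat_of_nonpos h.le]
      push_cast
      linarith
  calc (#T : ℝ) = ∑ u ∈ J, (#{z ∈ T | psi N z.1 + psi N z.2.1 + psi N z.2.2 = u} : ℝ) := by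
        rw [h1]
        push_cast
        rfl
    _ ≤ ∑ _u ∈ J, M := sum_le_sum h2
    _ = #J * M := by rw [sum_const, nsmul_eq_mul]
    _ ≤ (w + 4) * M := mul_le_mul_of_nonneg_right h3 hM0

/-- Hölder: the bound for one level by the `2s`-th moment over `Q` -/
theorem level_le (Q B : Finset ℕ) (ψ : ℕ → ℤ) (s : ℕ) (hs : 1 ≤ s)
    (hinj : Js B ψ 1 ≤ #B) (u : ℤ) :
    (#{z ∈ Q ×ˢ B ×ˢ B | ψ z.1 + ψ z.2.1 + ψ z.2.2 = u} : ℝ) ≤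
      #B * ((#B : ℝ) * Js Q ψ s) ^ (1 / (2 * (s : ℝ))) := by
  have hsR : (1 : ℝ) ≤ s := by exact_mod_cast hs
  have hs0 : (0 : ℝ) < s := by linarith
  have h1 := level_sq_le Q B ψ u
  have hm : (mom B ψ Q ψ 1 1 : ℝ) ≤ (mom B ψ Q ψ 1 s : ℝ) ^ (1 / (s : ℝ)) *
      (mom B ψ Q ψ 1 0 : ℝ) ^ (1 - 1 / (s : ℝ)) * (mom B ψ Q ψ 1 0 : ℝ) ^ (0 : ℝ) := by
    refine mom_convex_int B ψ Q ψ 1 1 1 s 1 0 1 0 _ _ _ (by positivity) ?_ le_rfl ?_ ?_ ?_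
    · rw [sub_nonneg, div_le_one hs0]
      exact hsR
    · ring
    · push_cast
      ring
    · push_cast
      field_simp
      ring
  have h10 : mom B ψ Q ψ 1 0 ≤ #B := by
    rw [mom_zero_right]
    exact hinj
  have h1s : mom B ψ Q ψ 1 s ≤ #B ^ 2 * Js Q ψ s := by
    have h := en_prod_le (tup B 1) (sm' ψ) (tup Q s) (sm' ψ)
    rw [card_tup, pow_one] at h
    exact h
  have hB0 : (0 : ℝ) ≤ #B := Nat.cast_nonneg _
  have hJ0 : (0 : ℝ) ≤ Js Q ψ s := Nat.cast_nonneg _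
  rw [Real.rpow_zero, mul_one] at hm
  have h2 : (mom B ψ Q ψ 1 1 : ℝ) ≤ ((#B : ℝ) ^ 2 * Js Q ψ s) ^ (1 / (s : ℝ)) *
      (#B : ℝ) ^ (1 - 1 / (s : ℝ)) := by
    refine hm.trans (mul_le_mul ?_ ?_ (by positivity) (by positivity))
    · exact Real.rpow_le_rpow (by positivity) (by exact_mod_cast h1s) (by positivity)
    · refine Real.rpow_le_rpow (by positivity) (by exact_mod_cast h10) ?_
      rw [sub_nonneg, div_le_one hs0]
      exact hsR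
  have h3 : ((#{z ∈ Q ×ˢ B ×ˢ B | ψ z.1 + ψ z.2.1 + ψ z.2.2 = u} : ℕ) : ℝ) ^ 2 ≤
      (((#B : ℝ) ^ 2 * Js Q ψ s) ^ (1 / (s : ℝ)) * (#B : ℝ) ^ (1 - 1 / (s : ℝ))) * #B := by
    calc ((#{z ∈ Q ×ˢ B ×ˢ B | ψ z.1 + ψ z.2.1 + ψ z.2.2 = u} : ℕ) : ℝ) ^ 2
        ≤ (mom B ψ Q ψ 1 1 : ℝ) * Js B ψ 1 := by exact_mod_cast h1
      _ ≤ _ := mul_le_mul h2 (by exact_mod_cast hinj) (by positivity) (by positivity)
  rcases eq_or_lt_of_le hB0 with hB | hB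
  · rw [← hB, mul_zero] at h3
    have h4 := pow_eq_zero_iff (two_ne_zero) |>.1 (le_antisymm h3 (sq_nonneg _))
    rw [h4, ← hB]
    simp
  · have h4 : (((#B : ℝ) ^ 2 * Js Q ψ s) ^ (1 / (s : ℝ)) * (#B : ℝ) ^ (1 - 1 / (s : ℝ))) * #B =
        (#B * ((#B : ℝ) * Js Q ψ s) ^ (1 / (2 * (s : ℝ)))) ^ 2 := by
      have e1 : ((#B : ℝ) ^ 2 * Js Q ψ s) ^ (1 / (s : ℝ)) =
          (#B : ℝ) ^ (1 / (s : ℝ)) * ((#B : ℝ) * Js Q ψ s) ^ (1 / (s : ℝ)) := by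
        rw [← Real.mul_rpow hB0 (by positivity)]
        congr 1
        ring
      have e2 : (((#B : ℝ) * Js Q ψ s) ^ (1 / (2 * (s : ℝ)))) ^ 2 =
          ((#B : ℝ) * Js Q ψ s) ^ (1 / (s : ℝ)) := by
        rw [← Real.rpow_natCast, ← Real.rpow_mul (by positivity)]
        congr 1
        push_cast
        field_simp
      have e3 : (#B : ℝ) ^ (1 / (s : ℝ)) * (#B : ℝ) ^ (1 - 1 / (s : ℝ)) = #B := by
        rw [← Real.rpow_add hB]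
        have : 1 / (s : ℝ) + (1 - 1 / (s : ℝ)) = 1 := by ring
        rw [this, Real.rpow_one]
      rw [mul_pow, e2, e1]
      calc (#B : ℝ) ^ (1 / (s : ℝ)) * ((#B : ℝ) * Js Q ψ s) ^ (1 / (s : ℝ)) *
            (#B : ℝ) ^ (1 - 1 / (s : ℝ)) * #B
          = ((#B : ℝ) ^ (1 / (s : ℝ)) * (#B : ℝ) ^ (1 - 1 / (s : ℝ))) *
            ((#B : ℝ) * Js Q ψ s) ^ (1 / (s : ℝ)) * #B := by ring
        _ = _ := by
            rw [e3]
            ring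
    rw [h4] at h3
    exact le_of_sq_le_sq h3 (by positivity)

end Pool.Agent.Helper84.CB
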