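import Pool.Agent.Helper58.LT.ClassDefs
import Pool.Agent.Helper58.LT.Spacing

/-!
# CB/Inject: the numbers of a class of case B are counted by `m`, `g` and the triples
-/

set_option autoImplicit false

namespace Pool.Agent.Helper84.CB

open Finset Pool.Agent.Helper58.LT Pool.Agent.Helper6.Lehmer Pool.Agent.Helper6.LehmerCount

/-- the primes in `[2^θ, 2^(θ+1))` -/
def Qs (θ : ℕ) : Finset ℕ := (Ico (2 ^ θ) (2 ^ (θ + 1))).filter Nat.Prime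

open scoped Classical in
/-- the squarefree numbers up to `R` -/
noncomputable def Bs (R : ℝ) : Finset ℕ := (Icc 1 ⌊R⌋₊).filter Squarefree

theorem lam_lt {n k D : ℕ} (h : Idx n k) (hD : D ∣ n) (hDn : D < n) : lam D < Real.log k := by
  have h1 := h.lt_mul_totient hD hDn
  have hn : 0 < n := by omega
  have hD0 : 0 < D := Nat.pos_of_dvd_of_pos hD hn
  have hφ : 0 < D.totient := Nat.totient_pos.2 hD0
  have hDR : (0 : ℝ) < D := by exact_mod_cast hD0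
  have hφR : (0 : ℝ) < D.totient := by exact_mod_cast hφ
  unfold lam
  apply Real.log_lt_log (by positivity)
  rw [div_lt_iff₀ hφR]
  exact_mod_cast h1

theorem lam_five {m g q b₁ b₂ : ℕ} (h : Squarefree (m * g * q * b₁ * b₂)) :
    lam (m * g * q * b₁ * b₂) = lam m + lam g + (lam q + lam b₁ + lam b₂) := by
  have h4 : Squarefree (m * g * q * b₁) := h.squarefree_of_dvd (dvd_mul_right _ _)
  have h3 : Squarefree (m * g * q) := h4.squarefree_of_dvd (dvd_mul_right _ _)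
  have h2 : Squarefree (m * g) := h3.squarefree_of_dvd (dvd_mul_right _ _)
  rw [lam_mul_of_squarefree h, lam_mul_of_squarefree h4, lam_mul_of_squarefree h3,
    lam_mul_of_squarefree h2]
  ring

theorem card_S_le (l W k μ ν θ β : ℕ) (S : Finset ℕ)
    (hS : ∀ n ∈ S, Idx n k ∧ n ≤ 2 ^ l ∧ DataB n l W k μ ν θ β) (M : ℝ)
    (hM : ∀ (v : ℝ) (T : Finset (ℕ × ℕ × ℕ)), (∀ z ∈ T,
      z ∈ Qs θ ×ˢ Bs ((2 : ℝ) ^ (((β : ℝ) - θ) / 2) * Real.exp (2 * W + 1)) ×ˢ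
        Bs ((2 : ℝ) ^ (((β : ℝ) - θ) / 2) * Real.exp (2 * W + 1)) ∧
      v - 2 * W / (2 ^ β : ℕ) < lam z.1 + lam z.2.1 + lam z.2.2 ∧
      lam z.1 + lam z.2.1 + lam z.2.2 < v) → (#T : ℝ) ≤ M) :
    (#S : ℝ) ≤ #(Lset k W ((2 : ℝ) ^ θ) (2 ^ μ)) * 2 ^ ν * M := by
  classical
  have hdata : ∀ n ∈ S, ∃ m g q b₁ b₂ f : ℕ, n = m * g * q * b₁ * b₂ * f ∧
      m ∈ Lset k W ((2 : ℝ) ^ θ) (2 ^ μ) ∧
      2 ^ ν ≤ g ∧ g < 2 ^ (ν + 1) ∧ q.Prime ∧ 2 ^ θ ≤ q ∧ q < 2 ^ (θ + 1) ∧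
      (b₁ : ℝ) ≤ (2 : ℝ) ^ (((β : ℝ) - θ) / 2) * Real.exp (2 * W + 1) ∧
      (b₂ : ℝ) ≤ (2 : ℝ) ^ (((β : ℝ) - θ) / 2) * Real.exp (2 * W + 1) ∧
      1 < f ∧ 2 ^ l ≤ (m * g * q * b₁ * b₂) ^ 2 ∧
      Real.log k - 2 * W / (2 : ℝ) ^ β < lam (m * g * q * b₁ * b₂) := fun n hn => (hS n hn).2.2
  choose! m g q b₁ b₂ f h1 h2 h3 h4 h5 h6 h7 h8 h9 h10 h11 h12 using hdata
  have hpos : ∀ n ∈ S, 0 < m n * g n * q n * b₁ n * b₂ n := by
    intro n hn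
    have h0 : 0 < n := by
      have := (hS n hn).1.lehmer.one_lt
      omega
    rw [h1 n hn] at h0
    exact Nat.pos_of_mul_pos_right h0
  have hdvd : ∀ n ∈ S, m n * g n * q n * b₁ n * b₂ n ∣ n := by
    intro n hn
    exact ⟨f n, h1 n hn⟩
  have hlt : ∀ n ∈ S, m n * g n * q n * b₁ n * b₂ n < n := by
    intro n hn
    conv_rhs => rw [h1 n hn]
    exact lt_mul_of_one_lt_right (hpos n hn) (h10 n hn)
  have hsq : ∀ n ∈ S, Squarefree (m n * g n * q n * b₁ n * b₂ n) := fun n hn =>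
    (hS n hn).1.lehmer.squarefree.squarefree_of_dvd (hdvd n hn)
  have hmaps : ∀ n ∈ S, (m n, g n) ∈
      Lset k W ((2 : ℝ) ^ θ) (2 ^ μ) ×ˢ Ico (2 ^ ν) (2 ^ (ν + 1)) := by
    intro n hn
    exact mem_product.2 ⟨h2 n hn, mem_Ico.2 ⟨h3 n hn, h4 n hn⟩⟩
  have hcard := card_eq_sum_card_fiberwise hmaps
  have hfib : ∀ y ∈ Lset k W ((2 : ℝ) ^ θ) (2 ^ μ) ×ˢ Ico (2 ^ ν) (2 ^ (ν + 1)),
      (#{n ∈ S | (m n, g n) = y} : ℝ) ≤ M := by
    intro y _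
    have hinj : Set.InjOn (fun n => (q n, b₁ n, b₂ n)) (({n ∈ S | (m n, g n) = y} : Finset ℕ) : Set ℕ) := by
      intro n hn n' hn' heq
      rw [mem_coe, mem_filter] at hn hn'
      simp only [Prod.mk.injEq] at heq
      obtain ⟨e1, e2, e3⟩ := heq
      have e4 := hn.2.trans hn'.2.symm
      simp only [Prod.mk.injEq] at e4
      have hD : m n * g n * q n * b₁ n * b₂ n = m n' * g n' * q n' * b₁ n' * b₂ n' := by
        rw [e1, e2, e3, e4.1, e4.2]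
      refine eq_of_divisor (X := 2 ^ l) (hS n hn.1).1 (hS n' hn'.1).1 (hS n hn.1).2.1
        (hS n' hn'.1).2.1 (hdvd n hn.1) ?_ (hlt n hn.1) ?_ (h11 n hn.1)
      · rw [hD]
        exact hdvd n' hn'.1
      · rw [hD]
        exact hlt n' hn'.1
    rw [← card_image_of_injOn hinj]
    apply hM (Real.log k - lam y.1 - lam y.2)
    intro z hz
    obtain ⟨n, hn, rfl⟩ := mem_image.1 hz
    rw [mem_filter] at hn
    obtain ⟨hn, rfl⟩ := hn
    have hb1 : 0 < b₁ n := by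
      have := hpos n hn
      exact Nat.pos_of_mul_pos_left (Nat.pos_of_mul_pos_right this)
    have hb2 : 0 < b₂ n := Nat.pos_of_mul_pos_left (hpos n hn)
    have hl := lam_five (hsq n hn)
    have hl2 := lam_lt (hS n hn).1 (hdvd n hn) (hlt n hn)
    have hl3 := h12 n hn
    refine ⟨mem_product.2 ⟨?_, mem_product.2 ⟨?_, ?_⟩⟩, ?_, ?_⟩
    · exact mem_filter.2 ⟨mem_Ico.2 ⟨h6 n hn, h7 n hn⟩, h5 n hn⟩
    · refine mem_filter.2 ⟨mem_Icc.2 ⟨hb1, Nat.le_floor (h8 n hn)⟩, ?_⟩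
      refine (hsq n hn).squarefree_of_dvd ?_
      exact (dvd_mul_left _ _).trans (dvd_mul_right _ _)
    · refine mem_filter.2 ⟨mem_Icc.2 ⟨hb2, Nat.le_floor (h9 n hn)⟩, ?_⟩
      exact (hsq n hn).squarefree_of_dvd (dvd_mul_left _ _)
    · push_cast
      linarith
    · simp only
      linarith
  calc (#S : ℝ) = ∑ y ∈ Lset k W ((2 : ℝ) ^ θ) (2 ^ μ) ×ˢ Ico (2 ^ ν) (2 ^ (ν + 1)),
        (#{n ∈ S | (m n, g n) = y} : ℝ) := by
        rw [hcard]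
        push_cast
        rfl
    _ ≤ ∑ _y ∈ Lset k W ((2 : ℝ) ^ θ) (2 ^ μ) ×ˢ Ico (2 ^ ν) (2 ^ (ν + 1)), M := sum_le_sum hfib
    _ = #(Lset k W ((2 : ℝ) ^ θ) (2 ^ μ)) * 2 ^ ν * M := by
        rw [sum_const, card_product, Nat.card_Ico, nsmul_eq_mul]
        have : 2 ^ (ν + 1) - 2 ^ ν = 2 ^ ν := by
          rw [pow_succ]
          omega
        rw [this]
        push_cast
        ring

end Pool.Agent.Helper84.CB
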