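import Mathlib

/-!
# CB/Numeric: the final inequality of case B
-/

set_option autoImplicit false

namespace Pool.Agent.Helper84.CB

theorem numeric (C : ℝ) (hC : 0 < C) : ∃ W₀ : ℕ, 2 ≤ W₀ ∧ ∀ (l W θ : ℕ), W₀ ≤ W → W ^ 60 ≤ l →
    (l : ℝ) ≤ 8192 * (W : ℝ) ^ 6 * θ →
    22 * (W : ℝ) + 3 + Real.log (24 * (W : ℝ) ^ 2 * (2 * W + 4)) +
      ((7 * (W : ℝ) + 1) + C * (4096 * (W : ℝ) ^ 5) ^ 10 - θ * Real.log 2 / 4) /
        (2 * (4096 * (W : ℝ) ^ 5) ^ 3) ≤ - ((l : ℝ) / (W : ℝ) ^ 23) := by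
  have hL : 0 < Real.log 2 := Real.log_pos (by norm_num)
  obtain ⟨κ, hκ⟩ : ∃ κ : ℝ, κ = Real.log 2 / (8192 * 8 * 4096 ^ 3) := ⟨_, rfl⟩
  have hκ0 : 0 < κ := by
    rw [hκ]
    positivity
  obtain ⟨C', hC'⟩ : ∃ C' : ℝ, C' = 200 + C * 4096 ^ 7 := ⟨_, rfl⟩
  have hC'0 : 0 < C' := by
    rw [hC']
    positivity
  refine ⟨⌈2 / κ + 2 * C' / κ⌉₊ + 2, by omega, ?_⟩
  intro l W θ hW hl hθ
  have hWR : (2 / κ + 2 * C' / κ) + 2 ≤ (W : ℝ) := by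
    have h1 : ((⌈2 / κ + 2 * C' / κ⌉₊ + 2 : ℕ) : ℝ) ≤ (W : ℝ) := by exact_mod_cast hW
    have h2 := Nat.le_ceil (2 / κ + 2 * C' / κ)
    push_cast at h1
    linarith
  have hk1 : 0 < 2 / κ := by positivity
  have hk2 : 0 < 2 * C' / κ := by positivity
  have hW2 : (2 : ℝ) ≤ W := by linarith
  have hW1 : (1 : ℝ) ≤ W := by linarith
  have hW0 : (0 : ℝ) < W := by linarith
  have hlR : (W : ℝ) ^ 60 ≤ l := by exact_mod_cast hl
  set w : ℝ := (W : ℝ) with hw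
  -- the logarithm
  have hlog : Real.log (24 * w ^ 2 * (2 * w + 4)) ≤ 24 * w ^ 2 * (2 * w + 4) := by
    have h := Real.log_le_sub_one_of_pos (x := 24 * w ^ 2 * (2 * w + 4)) (by positivity)
    linarith
  have hp : ∀ a b : ℕ, a ≤ b → w ^ a ≤ w ^ b := fun a b h => pow_le_pow_right₀ hW1 h
  have hlog2 : 24 * w ^ 2 * (2 * w + 4) ≤ 144 * w ^ 35 := by
    have h1 : w ^ 3 ≤ w ^ 35 := hp 3 35 (by norm_num)
    have h2 : 24 * w ^ 2 * (2 * w + 4) ≤ 144 * w ^ 3 := by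
      have : w ^ 2 ≤ w ^ 3 := hp 2 3 (by norm_num)
      nlinarith
    linarith
  have hs : (2 * (4096 * w ^ 5) ^ 3 : ℝ) = 2 * 4096 ^ 3 * w ^ 15 := by ring
  have hden : (0 : ℝ) < 2 * 4096 ^ 3 * w ^ 15 := by positivity
  have hT1 : (7 * w + 1) / (2 * 4096 ^ 3 * w ^ 15) ≤ w ^ 35 := by
    rw [div_le_iff₀ hden]
    have h1 : (1 : ℝ) ≤ w ^ 15 := one_le_pow₀ hW1
    have h2 : w ≤ w ^ 35 := by
      have := hp 1 35 (by norm_num)
      rwa [pow_one] at this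
    have h3 : (1 : ℝ) ≤ w ^ 35 := one_le_pow₀ hW1
    have h4 : 8 * w ^ 35 ≤ w ^ 35 * (2 * 4096 ^ 3 * w ^ 15) := by
      nlinarith [pow_pos hW0 35]
    linarith
  have hT2 : C * (4096 * w ^ 5) ^ 10 / (2 * 4096 ^ 3 * w ^ 15) ≤ C * 4096 ^ 7 * w ^ 35 := by
    rw [div_le_iff₀ hden]
    have h1 : C * (4096 * w ^ 5) ^ 10 = C * 4096 ^ 10 * w ^ 50 := by ring
    have h2 : C * 4096 ^ 7 * w ^ 35 * (2 * 4096 ^ 3 * w ^ 15) = 2 * (C * 4096 ^ 10 * w ^ 50) := by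
      ring
    rw [h1, h2]
    have : 0 < C * 4096 ^ 10 * w ^ 50 := by positivity
    linarith
  have hT3 : κ * (l / w ^ 21) ≤ θ * Real.log 2 / 4 / (2 * 4096 ^ 3 * w ^ 15) := by
    rw [hκ, div_div, le_div_iff₀ (by positivity)]
    have e1 : Real.log 2 / (8192 * 8 * 4096 ^ 3) * (↑l / w ^ 21) * (4 * (2 * 4096 ^ 3 * w ^ 15)) =
        Real.log 2 * (l / (8192 * w ^ 6)) := by
      field_simp
      ring
    rw [e1, mul_comm (θ : ℝ)]
    apply mul_le_mul_of_nonneg_left _ hL.le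
    rw [div_le_iff₀ (by positivity)]
    linarith
  have hsplit : ((7 * w + 1) + C * (4096 * w ^ 5) ^ 10 - θ * Real.log 2 / 4) /
        (2 * (4096 * w ^ 5) ^ 3) = (7 * w + 1) / (2 * 4096 ^ 3 * w ^ 15) +
        C * (4096 * w ^ 5) ^ 10 / (2 * 4096 ^ 3 * w ^ 15) -
        θ * Real.log 2 / 4 / (2 * 4096 ^ 3 * w ^ 15) := by
    rw [hs]
    ring
  rw [hsplit]
  have hA : w ^ 39 ≤ l / w ^ 21 := by
    rw [le_div_iff₀ (by positivity), ← pow_add]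
    exact hlR
  have hB : (l : ℝ) / w ^ 23 = (l / w ^ 21) * (1 / w ^ 2) := by
    field_simp
  have hC1 : 1 / w ^ 2 ≤ κ / 2 := by
    rw [div_le_div_iff₀ (by positivity) (by norm_num)]
    have h1 : 2 / κ ≤ w := by linarith
    rw [div_le_iff₀ hκ0] at h1
    nlinarith
  have hA0 : 0 < l / w ^ 21 := lt_of_lt_of_le (by positivity) hA
  have hB2 : (l : ℝ) / w ^ 23 ≤ (l / w ^ 21) * (κ / 2) := by
    rw [hB]
    exact mul_le_mul_of_nonneg_left hC1 hA0.le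
  have hD : C' * w ^ 35 ≤ (l / w ^ 21) * (κ / 2) := by
    have h1 : 2 * C' / κ ≤ w := by linarith
    rw [div_le_iff₀ hκ0] at h1
    have h2 : C' ≤ w ^ 4 * (κ / 2) := by
      have h3 : w ≤ w ^ 4 := by
        have := hp 1 4 (by norm_num)
        rwa [pow_one] at this
      have h4 : w * κ ≤ w ^ 4 * κ := mul_le_mul_of_nonneg_right h3 hκ0.le
      linarith
    calc C' * w ^ 35 ≤ w ^ 4 * (κ / 2) * w ^ 35 :=
          mul_le_mul_of_nonneg_right h2 (by positivity)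
      _ = w ^ 39 * (κ / 2) := by ring
      _ ≤ _ := mul_le_mul_of_nonneg_right hA (by positivity)
  have hE : 22 * w + 3 ≤ 25 * w ^ 35 := by
    have h2 : w ≤ w ^ 35 := by
      have := hp 1 35 (by norm_num)
      rwa [pow_one] at this
    have h3 : (1 : ℝ) ≤ w ^ 35 := one_le_pow₀ hW1
    linarith
  have hF : C' * w ^ 35 = 200 * w ^ 35 + C * 4096 ^ 7 * w ^ 35 := by
    rw [hC']
    ring
  have hG : 0 < w ^ 35 := by positivity
  linarith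

end Pool.Agent.Helper84.CB
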